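import Mathlib
import Pool.Agent.Work.MP_c51d14_co.Interface

/-! # Block GEN of MP_c51d14_co (helper33) -/

namespace Pool.Agent.TP

open Finset

theorem stmt_Gen : Stmt_Gen := by
  intro L κ W _ _ _ _ _ g b hb
  classical
  have hφ : ∀ S : Set L, Submodule.span ℝ (g '' S) ≠ ⊤ →
      ∃ φ : Module.Dual ℝ W, φ ≠ 0 ∧ ∀ x ∈ Submodule.span ℝ (g '' S), φ x = 0 := by
    intro S hS
    obtain ⟨φ, h1, h2⟩ := Submodule.exists_le_ker_of_lt_top _ (lt_top_iff_ne_top.mpr hS)
    exact ⟨φ, h1, fun x hx => h2 hx⟩
  choose! φ hφ1 hφ2 using hφ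
  let e := Fintype.equivFin κ
  let P : Set L → Polynomial ℝ := fun S =>
    if Submodule.span ℝ (g '' S) ≠ ⊤ then ∑ k, Polynomial.monomial (e k : ℕ) (φ S (b k)) else 1
  have hP : ∀ S, P S ≠ 0 := by
    intro S
    by_cases hS : Submodule.span ℝ (g '' S) ≠ ⊤
    · simp only [P, if_pos hS]
      intro h0
      apply hφ1 S hS
      have hk : ∀ k, φ S (b k) = 0 := by
        intro k
        have h1 := congrArg (fun p => Polynomial.coeff p (e k : ℕ)) h0
        simp only [Polynomial.finset_sum_coeff, Polynomial.coeff_monomial,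
          Polynomial.coeff_zero] at h1
        rw [Finset.sum_eq_single k] at h1
        · simpa using h1
        · intro k' _ hne
          rw [if_neg]
          intro h
          exact hne (e.injective (Fin.ext h))
        · intro h; exact absurd (Finset.mem_univ k) h
      apply LinearMap.ext_on_range (v := b) hb
      intro k
      simpa using hk k
    · simp only [P, if_neg hS]
      exact one_ne_zero
  have hq : (∏ S : Set L, P S) ≠ 0 := Finset.prod_ne_zero_iff.mpr fun S _ => hP S
  obtain ⟨t, ht0, ht⟩ : ∃ t : ℝ, 0 < t ∧ (∏ S : Set L, P S).eval t ≠ 0 := by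
    by_contra hcon
    push_neg at hcon
    apply hq
    apply Polynomial.eq_zero_of_infinite_isRoot
    apply (Set.Ioi_infinite (0 : ℝ)).mono
    intro t ht
    exact hcon t ht
  refine ⟨∑ k, t ^ (e k : ℕ) • b k, fun k => t ^ (e k : ℕ), fun k => pow_pos ht0 _, rfl, ?_⟩
  intro S hS
  by_contra hne
  have h1 := hφ2 S hne _ hS
  apply ht
  rw [Polynomial.eval_prod]
  apply Finset.prod_eq_zero (Finset.mem_univ S)
  simp only [P, if_pos hne, ne_eq]
  rw [Polynomial.eval_finset_sum]
  simp only [Polynomial.eval_monomial]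
  rw [map_sum] at h1
  simp only [map_smul, smul_eq_mul] at h1
  rw [← h1]
  exact Finset.sum_congr rfl fun k _ => mul_comm _ _

end Pool.Agent.TP
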