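import Mathlib
import Pool.Agent.Work.MP_c51d14_co.Basic2
import Pool.Agent.Work.MP_c51d14_co_helper33.GEN

/-! # Block DEG of MP_c51d14_co (helper33) -/

namespace Pool.Agent.TP

open Finset

/-! ### chains of finite sets and the peeling lemma -/

section peel

variable {κ : Type} [Fintype κ]

omit [Fintype κ] in
theorem chain_min {z : Finset (Finset κ)} (hc : ∀ Z ∈ z, ∀ Z' ∈ z, Z ⊆ Z' ∨ Z' ⊆ Z)
    (hz : z.Nonempty) : ∃ Z₀ ∈ z, ∀ Z ∈ z, Z₀ ⊆ Z := by
  obtain ⟨Z₀, h0, h1⟩ := z.exists_min_image Finset.card hz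
  refine ⟨Z₀, h0, fun Z hZ => ?_⟩
  rcases hc Z₀ h0 Z hZ with h | h
  · exact h
  · rw [Finset.eq_of_subset_of_card_le h (h1 Z hZ)]

/-- a chain has a point outside the smallest member which lies in all the others -/
theorem exists_sep {A : Finset (Finset κ)} (hc : ∀ Z ∈ A, ∀ Z' ∈ A, Z ⊆ Z' ∨ Z' ⊆ Z)
    {Z₁ : Finset κ} (hmin : ∀ Z ∈ A, Z₁ ⊆ Z) (hne : Z₁ ≠ univ) :
    ∃ k, k ∉ Z₁ ∧ ∀ Z ∈ A, Z ≠ Z₁ → k ∈ Z := by
  classical
  by_cases hA : (A.erase Z₁).Nonempty
  · obtain ⟨Z₂, h2, hmin2⟩ := chain_min (z := A.erase Z₁) (fun Z hZ Z' hZ' =>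
      hc Z (Finset.mem_of_mem_erase hZ) Z' (Finset.mem_of_mem_erase hZ')) hA
    rw [Finset.mem_erase] at h2
    have hs : Z₁ ⊂ Z₂ := Finset.ssubset_iff_subset_ne.2 ⟨hmin Z₂ h2.2, h2.1.symm⟩
    obtain ⟨k, hk2, hk1⟩ := Finset.exists_of_ssubset hs
    exact ⟨k, hk1, fun Z hZ hZ1 => hmin2 Z (Finset.mem_erase.2 ⟨hZ1, hZ⟩) hk2⟩
  · have hs : Z₁ ⊂ univ := Finset.ssubset_iff_subset_ne.2 ⟨Finset.subset_univ _, hne⟩
    obtain ⟨k, _, hk1⟩ := Finset.exists_of_ssubset hs
    refine ⟨k, hk1, fun Z hZ hZ1 => ?_⟩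
    exact absurd ⟨Z, Finset.mem_erase.2 ⟨hZ1, hZ⟩⟩ hA

/-- data of a positive combination along a chain -/
structure PC (G : Finset κ → κ → ℝ) (z : Finset (Finset κ)) (β : Finset κ → ℝ) : Prop where
  good : ∀ Z ∈ z, ∀ k, 0 ≤ G Z k ∧ (k ∈ Z ↔ G Z k = 0)
  ne : ∀ Z ∈ z, Z ≠ univ
  ch : ∀ Z ∈ z, ∀ Z' ∈ z, Z ⊆ Z' ∨ Z' ⊆ Z
  pos : ∀ Z ∈ z, 0 < β Z

theorem PC.erase {G : Finset κ → κ → ℝ} {z : Finset (Finset κ)} {β : Finset κ → ℝ}
    [DecidableEq (Finset κ)] (h : PC G z β) (Z₀ : Finset κ) : PC G (z.erase Z₀) β :=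
  ⟨fun Z hZ => h.good Z (Finset.mem_of_mem_erase hZ), fun Z hZ => h.ne Z (Finset.mem_of_mem_erase hZ),
    fun Z hZ Z' hZ' => h.ch Z (Finset.mem_of_mem_erase hZ) Z' (Finset.mem_of_mem_erase hZ'),
    fun Z hZ => h.pos Z (Finset.mem_of_mem_erase hZ)⟩

theorem PC.mem_of_zero {G : Finset κ → κ → ℝ} {z : Finset (Finset κ)} {β : Finset κ → ℝ}
    (h : PC G z β) {k : κ} (hk : ∑ Z ∈ z, β Z * G Z k = 0) : ∀ Z ∈ z, k ∈ Z := by
  rw [Finset.sum_eq_zero_iff_of_nonneg
    (fun Z hZ => mul_nonneg (h.pos Z hZ).le (h.good Z hZ k).1)] at hk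
  intro Z hZ
  rcases mul_eq_zero.1 (hk Z hZ) with h1 | h1
  · exact absurd h1 (h.pos Z hZ).ne'
  · exact (h.good Z hZ k).2.2 h1

theorem PC.zero_of_mem {G : Finset κ → κ → ℝ} {z : Finset (Finset κ)} {β : Finset κ → ℝ}
    (h : PC G z β) {k : κ} (hk : ∀ Z ∈ z, k ∈ Z) : ∑ Z ∈ z, β Z * G Z k = 0 := by
  apply Finset.sum_eq_zero
  intro Z hZ
  rw [((h.good Z hZ k).2).1 (hk Z hZ), mul_zero]

theorem PC.empty {G : Finset κ → κ → ℝ} {z : Finset (Finset κ)} {β : Finset κ → ℝ}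
    (h : PC G z β) (hk : ∀ k, ∑ Z ∈ z, β Z * G Z k = 0) : z = ∅ := by
  by_contra hne
  obtain ⟨Z, hZ⟩ := Finset.nonempty_iff_ne_empty.2 hne
  have : ∃ k, k ∉ Z := by
    by_contra hcon
    push Not at hcon
    exact h.ne Z hZ (Finset.eq_univ_iff_forall.2 hcon)
  obtain ⟨k, hkZ⟩ := this
  exact hkZ (h.mem_of_zero (hk k) Z hZ)

/-- one step of the peeling -/
theorem peel_step {G : Finset κ → κ → ℝ} [DecidableEq (Finset κ)] (n : ℕ)
    (ih : ∀ (z z' : Finset (Finset κ)) (β β' : Finset κ → ℝ), z.card + z'.card < n →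
      PC G z β → PC G z' β' → (∀ k, ∑ Z ∈ z, β Z * G Z k = ∑ Z ∈ z', β' Z * G Z k) → z = z')
    (z z' : Finset (Finset κ)) (β β' : Finset κ → ℝ) (hn : z.card + z'.card = n)
    (h : PC G z β) (h' : PC G z' β')
    (hs : ∀ k, ∑ Z ∈ z, β Z * G Z k = ∑ Z ∈ z', β' Z * G Z k) (Z₀ : Finset κ)
    (h0 : Z₀ ∈ z) (h0' : Z₀ ∈ z') (hle : β Z₀ ≤ β' Z₀) : z = z' := by
  have hcard : (z.erase Z₀).card + 1 = z.card := Finset.card_erase_add_one h0
  have hcard' : (z'.erase Z₀).card + 1 = z'.card := Finset.card_erase_add_one h0'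
  rcases eq_or_lt_of_le hle with he | hlt
  · have h1 := ih (z.erase Z₀) (z'.erase Z₀) β β' (by omega) (h.erase Z₀) (h'.erase Z₀) (by
      intro k
      have := hs k
      rw [← Finset.add_sum_erase _ _ h0, ← Finset.add_sum_erase _ _ h0', he] at this
      linarith)
    rw [← Finset.insert_erase h0, h1, Finset.insert_erase h0']
  · exfalso
    let β'' : Finset κ → ℝ := fun Z => if Z = Z₀ then β' Z₀ - β Z₀ else β' Z
    have h1 := ih (z.erase Z₀) z' β β'' (by omega) (h.erase Z₀)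
      ⟨h'.good, h'.ne, h'.ch, fun Z hZ => by
        simp only [β'']
        split_ifs
        · linarith
        · exact h'.pos Z hZ⟩ (by
      intro k
      have := hs k
      rw [← Finset.add_sum_erase _ _ h0, ← Finset.add_sum_erase _ _ h0'] at this
      rw [← Finset.add_sum_erase z' _ h0']
      have h2 : ∑ Z ∈ z'.erase Z₀, β'' Z * G Z k = ∑ Z ∈ z'.erase Z₀, β' Z * G Z k := by
        apply Finset.sum_congr rfl
        intro Z hZ
        simp only [β'', if_neg (Finset.ne_of_mem_erase hZ)]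
      rw [h2]
      simp only [β'', if_true]
      linarith)
    have h3 : Z₀ ∈ z.erase Z₀ := h1 ▸ h0'
    exact (Finset.notMem_erase Z₀ z) h3

theorem peel {G : Finset κ → κ → ℝ} (n : ℕ) : ∀ (z z' : Finset (Finset κ)) (β β' : Finset κ → ℝ),
    z.card + z'.card = n → PC G z β → PC G z' β' →
    (∀ k, ∑ Z ∈ z, β Z * G Z k = ∑ Z ∈ z', β' Z * G Z k) → z = z' := by
  classical
  induction n using Nat.strong_induction_on with
  | _ n ih =>
    intro z z' β β' hn h h' hs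
    have ih' : ∀ (z z' : Finset (Finset κ)) (β β' : Finset κ → ℝ), z.card + z'.card < n →
      PC G z β → PC G z' β' → (∀ k, ∑ Z ∈ z, β Z * G Z k = ∑ Z ∈ z', β' Z * G Z k) → z = z' :=
      fun z z' β β' hlt => ih _ hlt z z' β β' rfl
    by_cases hz : z.Nonempty
    · by_cases hz' : z'.Nonempty
      · obtain ⟨Z₀, h0, hmin⟩ := chain_min h.ch hz
        obtain ⟨Z₁, h1, hmin'⟩ := chain_min h'.ch hz'
        have he : Z₀ = Z₁ := by
          apply Finset.Subset.antisymm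
          · intro k hk
            exact h'.mem_of_zero ((hs k).symm.trans (h.zero_of_mem fun Z hZ => hmin Z hZ hk)) Z₁ h1
          · intro k hk
            exact h.mem_of_zero ((hs k).trans (h'.zero_of_mem fun Z hZ => hmin' Z hZ hk)) Z₀ h0
        rw [← he] at h1
        rcases le_total (β Z₀) (β' Z₀) with hle | hle
        · exact peel_step n ih' z z' β β' hn h h' hs Z₀ h0 h1 hle
        · exact (peel_step n ih' z' z β' β (by omega) h' h (fun k => (hs k).symm) Z₀ h1 h0 hle).symm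
      · rw [Finset.not_nonempty_iff_eq_empty] at hz'
        subst hz'
        exact h.empty fun k => by rw [hs k]; simp
    · rw [Finset.not_nonempty_iff_eq_empty] at hz
      subst hz
      exact (h'.empty fun k => by rw [← hs k]; simp).symm

end peel

namespace Sark

variable {ι E W : Type} [Fintype ι] [AddCommGroup E] [Module ℝ E] [FiniteDimensional ℝ E]
  [NormedAddCommGroup W] [InnerProductSpace ℝ W] [FiniteDimensional ℝ W] {r : ℕ}
  (D : Sark ι E W r)

open scoped RealInnerProductSpace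

/-- a member of `N` of the smallest possible rank -/
theorem exists_rk_min (hLP : Stmt_LP) :
    ∃ Z ∈ D.N, rk D.c (Z : Set (Fin r × ι)) = Module.finrank ℝ E := by
  classical
  obtain ⟨Z₀, h0, hmin⟩ := D.N.exists_min_image Finset.card ⟨_, D.univ_mem_N⟩
  refine ⟨Z₀, h0, ?_⟩
  by_contra hne
  have hlt : Module.finrank ℝ E < rk D.c (Z₀ : Set (Fin r × ι)) :=
    lt_of_le_of_ne (D.finrank_le_rk_c h0) (Ne.symm hne)
  obtain ⟨w, hw, hws⟩ := D.exists_w0 hlt
  let u : W := w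
  obtain ⟨ψ, ⟨h1, h2⟩, -⟩ := D.lp_on hLP (D.mem_N.1 h0).2
    (fun k => ⟪u, D.Φ k.1 (D.v k.2)⟫)
  have hrel := (D.mem_N.1 h0).1.rel (fn u ψ) (fun k hk => by
    rw [D.fn_c, Sark.val]
    have := h1 k hk
    linarith)
  set Z₁ := Z₀.filter fun k => (fn u ψ) (D.c k) = 0 with hZ₁
  have hN : Z₁ ∈ D.N := by
    rw [D.mem_N]
    refine ⟨hrel, h2.mono ?_⟩
    rintro k ⟨hk1, hk2⟩
    rw [Finset.mem_coe, hZ₁, Finset.mem_filter]
    refine ⟨hk1, ?_⟩
    rw [D.fn_c, Sark.val, hk2, sub_self]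
  have he : Z₁ = Z₀ := Finset.eq_of_subset_of_card_le (Finset.filter_subset _ _) (hmin _ hN)
  have hv : fn u ψ (w, 0) = 0 := by
    apply dual_zero_of_span (v := D.c) (S := (Z₀ : Set (Fin r × ι))) _ hws
    intro k hk
    rw [Finset.mem_coe, ← he, hZ₁, Finset.mem_filter] at hk
    exact hk.2
  rw [fn_apply, map_zero, add_zero] at hv
  exact hw (inner_self_eq_zero.1 hv)

/-- there is a complete flag -/
theorem exists_flag (hLP : Stmt_LP) (hB : Stmt_Between) :
    ∃ z ∈ D.CH, z.card = Module.finrank ℝ W := by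
  classical
  have key : ∀ i, i ≤ Module.finrank ℝ W → ∃ z ∈ D.CH, z.card = i ∧
      ∃ Zm ∈ D.N, rk D.c (Zm : Set (Fin r × ι)) = Module.finrank ℝ E + i ∧ ∀ Z ∈ z, Z ⊂ Zm := by
    intro i
    induction i with
    | zero =>
      intro _
      obtain ⟨Z, hZ, hr⟩ := D.exists_rk_min hLP
      exact ⟨∅, D.empty_mem_CH, rfl, Z, hZ, by rw [hr, add_zero], by simp⟩
    | succ i ih =>
      intro hi
      obtain ⟨z, hz, hzc, Zm, hZm, hrk, hlt⟩ := ih (by omega)
      have hu := D.rk_c_univ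
      obtain ⟨H, hH, hH1, hH2, hH3⟩ := hB _ _ D.c Zm univ (D.mem_N.1 hZm).1
        (IsFace.univ_face _) (Finset.subset_univ _) (by rw [hu, hrk]; omega)
      have hss : Zm ⊂ H := by
        refine Finset.ssubset_iff_subset_ne.2 ⟨hH1, fun he => ?_⟩
        rw [he] at hH3
        omega
      have hZmz : Zm ∉ z := fun h => (hlt Zm h).ne rfl
      refine ⟨insert Zm z, ?_, ?_, H, D.mem_N_mono hZm hH hH1, by rw [hH3, hrk]; omega, ?_⟩
      · rw [mem_CH] at hz ⊢
        constructor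
        · intro Z hZ
          rcases Finset.mem_insert.1 hZ with rfl | hZ
          · refine ⟨hZm, fun he => ?_⟩
            rw [he, hu] at hrk
            omega
          · exact hz.1 Z hZ
        · intro Z hZ Z' hZ'
          rcases Finset.mem_insert.1 hZ with hZ | hZ
          · rcases Finset.mem_insert.1 hZ' with hZ' | hZ'
            · exact Or.inl (by rw [hZ, hZ'])
            · exact Or.inr (by rw [hZ]; exact (hlt Z' hZ').subset)
          · rcases Finset.mem_insert.1 hZ' with hZ' | hZ'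
            · exact Or.inl (by rw [hZ']; exact (hlt Z hZ).subset)
            · exact hz.2 Z hZ Z' hZ'
      · rw [Finset.card_insert_of_notMem hZmz, hzc]
      · intro Z hZ
        rcases Finset.mem_insert.1 hZ with rfl | hZ
        · exact hss
        · exact (hlt Z hZ).trans hss
  obtain ⟨z, hz, hzc, -⟩ := key _ le_rfl
  exact ⟨z, hz, hzc⟩

theorem wit_good {Z : Finset (Fin r × ι)} (hZ : Z ∈ D.N) (k : Fin r × ι) :
    0 ≤ D.val (D.wit Z).1 (D.wit Z).2 k ∧ (k ∈ Z ↔ D.val (D.wit Z).1 (D.wit Z).2 k = 0) :=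
  D.wit_spec (D.mem_N.1 hZ).1 k

/-- the vectors attached to the members of a chain are linearly independent -/
theorem linInd_chain {z : Finset (Finset (Fin r × ι))} (hz : z ∈ D.CH) :
    LinearIndependent ℝ (fun Z : z => (D.wit (Z : Finset (Fin r × ι))).1) := by
  classical
  rw [Fintype.linearIndependent_iff]
  intro α hα
  obtain ⟨hz1, hz2⟩ := D.mem_CH.1 hz
  let a : Finset (Fin r × ι) → ℝ := fun Z => if h : Z ∈ z then α ⟨Z, h⟩ else 0
  have hsum : ∑ Z ∈ z, a Z • (D.wit Z).1 = 0 := by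
    rw [← hα, ← Finset.sum_coe_sort z]
    apply Finset.sum_congr rfl
    intro Z _
    simp only [a, dif_pos Z.2]
  have hval : ∀ k, ∑ Z ∈ z, a Z * D.val (D.wit Z).1 (D.wit Z).2 k = 0 := by
    by_cases hne : z.Nonempty
    · obtain ⟨Z₀, h0, hmin⟩ := chain_min hz2 hne
      have hψ : ∑ Z ∈ z, a Z • (D.wit Z).2 = 0 := by
        apply psi_eq_zero_of_span (D.span_of_pos (D.mem_N.1 (hz1 Z₀ h0).1).2)
        intro k hk
        have h1 := D.val_sum z a (fun Z => (D.wit Z).1) (fun Z => (D.wit Z).2) k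
        rw [hsum] at h1
        rw [Finset.sum_eq_zero (s := z) (f := fun Z => a Z * D.val (D.wit Z).1 (D.wit Z).2 k)
          (fun Z hZ => by
            rw [((D.wit_good (hz1 Z hZ).1 k).2).1 (hmin Z hZ hk), mul_zero])] at h1
        rw [Sark.val, inner_zero_left, sub_zero] at h1
        exact h1
      intro k
      rw [← D.val_sum z a (fun Z => (D.wit Z).1) (fun Z => (D.wit Z).2) k, hsum, hψ, D.val_zero]
    · rw [Finset.not_nonempty_iff_eq_empty] at hne
      intro k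
      rw [hne]; simp
  have hall : ∀ Z ∈ z, a Z = 0 := by
    by_contra hcon
    push Not at hcon
    obtain ⟨Zc, hZc, hZc0⟩ := hcon
    let A := z.filter fun Z => a Z ≠ 0
    have hAne : A.Nonempty := ⟨Zc, Finset.mem_filter.2 ⟨hZc, hZc0⟩⟩
    have hAc : ∀ Z ∈ A, ∀ Z' ∈ A, Z ⊆ Z' ∨ Z' ⊆ Z := fun Z hZ Z' hZ' =>
      hz2 Z (Finset.mem_filter.1 hZ).1 Z' (Finset.mem_filter.1 hZ').1
    obtain ⟨Z₁, h1, hmin⟩ := chain_min hAc hAne
    have h1' := Finset.mem_filter.1 h1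
    obtain ⟨k, hk1, hk2⟩ := exists_sep hAc hmin (hz1 Z₁ h1'.1).2
    have h2 := hval k
    rw [Finset.sum_eq_single Z₁] at h2
    · rcases mul_eq_zero.1 h2 with h3 | h3
      · exact h1'.2 h3
      · exact hk1 (((D.wit_good (hz1 Z₁ h1'.1).1 k).2).2 h3)
    · intro Z hZ hne
      by_cases haZ : a Z = 0
      · rw [haZ, zero_mul]
      · rw [((D.wit_good (hz1 Z hZ).1 k).2).1 (hk2 Z (Finset.mem_filter.2 ⟨hZ, haZ⟩) hne), mul_zero]
    · intro h; exact absurd h1'.1 h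
  intro Z
  have := hall Z Z.2
  simp only [a, dif_pos Z.2] at this
  exact this

end Sark

theorem stmt_Deg (hLP : Stmt_LP) (hB : Stmt_Between) : Stmt_Deg := by
  intro ι E W _ _ _ _ _ _ _ r D
  classical
  obtain ⟨z, hz, hzc⟩ := D.exists_flag hLP hB
  have hli := D.linInd_chain hz
  have hspan : Submodule.span ℝ (Set.range fun Z : z => (D.wit (Z : Finset (Fin r × ι))).1) = ⊤ := by
    apply hli.span_eq_top_of_card_eq_finrank'
    rw [Fintype.card_coe, hzc]
  obtain ⟨θ, β, hβ, hθ, hgen⟩ := stmt_Gen _ _ _ D.vec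
    (fun Z : z => (D.wit (Z : Finset (Fin r × ι))).1) hspan
  refine ⟨θ, hgen, ?_⟩
  let b : Finset (Fin r × ι) → ℝ := fun Z => if h : Z ∈ z then β ⟨Z, h⟩ else 0
  have hb : ∀ Z ∈ z, 0 < b Z := fun Z hZ => by simp only [b, dif_pos hZ]; exact hβ _
  have hθb : θ = ∑ Z ∈ z, b Z • (D.wit Z).1 := by
    rw [hθ, ← Finset.sum_coe_sort z]
    apply Finset.sum_congr rfl
    intro Z _
    simp only [b, dif_pos Z.2]
  have hlab : ∀ (y : Finset (Finset (Fin r × ι)))
      (γ : Finset (Fin r × ι) ⊕ (Fin r × ι) → ℝ),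
      (∀ l, γ l ≠ 0 → l ∈ ((y.image Sum.inl : Finset (Finset (Fin r × ι) ⊕ (Fin r × ι))) :
        Set (Finset (Fin r × ι) ⊕ (Fin r × ι)))) →
      ∑ l, γ l • D.vec l = ∑ Z ∈ y, γ (Sum.inl Z) • (D.wit Z).1 := by
    intro y γ hγ
    rw [← Finset.sum_subset (Finset.subset_univ (y.image Sum.inl)) (fun l _ hl => by
      have : γ l = 0 := by
        by_contra h
        exact hl (Finset.mem_coe.1 (hγ l h))
      rw [this, zero_smul])]
    rw [Finset.sum_image (fun a _ b _ h => Sum.inl_injective h)]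
    rfl
  have hposz : Pos D.vec ((z.image Sum.inl : Finset (Finset (Fin r × ι) ⊕ (Fin r × ι))) :
      Set (Finset (Fin r × ι) ⊕ (Fin r × ι))) θ := by
    let γ : Finset (Fin r × ι) ⊕ (Fin r × ι) → ℝ := Sum.elim b (fun _ => 0)
    have hγ : ∀ l, γ l ≠ 0 → l ∈ ((z.image Sum.inl : Finset (Finset (Fin r × ι) ⊕ (Fin r × ι))) :
        Set (Finset (Fin r × ι) ⊕ (Fin r × ι))) := by
      intro l hl
      rcases l with Z | k
      · rw [Finset.mem_coe, Finset.mem_image]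
        refine ⟨Z, ?_, rfl⟩
        by_contra hZ
        exact hl (by simp only [γ, Sum.elim_inl, b, dif_neg hZ])
      · exact absurd rfl hl
    refine ⟨γ, ?_, hγ, ?_⟩
    · intro l
      rcases l with Z | k
      · simp only [γ, Sum.elim_inl, b]
        split_ifs
        · exact (hβ _).le
        · exact le_rfl
      · exact le_rfl
    · rw [hlab z γ hγ, hθb]
      rfl
  have huniq : ∀ z' ∈ D.CH, z'.card = Module.finrank ℝ W →
      Pos D.vec ((z'.image Sum.inl : Finset (Finset (Fin r × ι) ⊕ (Fin r × ι))) :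
        Set (Finset (Fin r × ι) ⊕ (Fin r × ι))) θ → z' = z := by
    intro z' hz' hzc' hpos
    obtain ⟨γ, hγ0, hγs, hγθ⟩ := hpos
    rw [hlab z' γ hγs] at hγθ
    obtain ⟨hz1, hz2⟩ := D.mem_CH.1 hz
    obtain ⟨hz1', hz2'⟩ := D.mem_CH.1 hz'
    -- all coefficients are positive
    have hγpos : ∀ Z ∈ z', 0 < γ (Sum.inl Z) := by
      intro Z hZ
      refine lt_of_le_of_ne (hγ0 _) fun h => ?_
      have h1 : θ ∈ Submodule.span ℝ (D.vec '' (((z'.erase Z).image Sum.inl :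
          Finset (Finset (Fin r × ι) ⊕ (Fin r × ι))) :
          Set (Finset (Fin r × ι) ⊕ (Fin r × ι)))) := by
        rw [hγθ, ← Finset.add_sum_erase _ _ hZ, ← h, zero_smul, zero_add]
        apply Submodule.sum_mem
        intro Y hY
        apply Submodule.smul_mem
        apply Submodule.subset_span
        exact ⟨Sum.inl Y, by rw [Finset.mem_coe]; exact Finset.mem_image_of_mem _ hY, rfl⟩
      have h2 := hgen _ h1
      have h3 : Module.finrank ℝ ↥(Submodule.span ℝ (D.vec '' (((z'.erase Z).image Sum.inl :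
          Finset (Finset (Fin r × ι) ⊕ (Fin r × ι))) :
          Set (Finset (Fin r × ι) ⊕ (Fin r × ι))))) ≤ (z'.erase Z).card := by
        have h4 := finrank_span_finset_le_card (R := ℝ) (((z'.erase Z).image Sum.inl).image D.vec)
        rw [Finset.coe_image] at h4
        exact h4.trans (Finset.card_image_le.trans Finset.card_image_le)
      rw [h2, finrank_top, Finset.card_erase_of_mem hZ, hzc'] at h3
      have h5 : 0 < z'.card := Finset.card_pos.2 ⟨Z, hZ⟩
      omega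
    by_cases hne : z.Nonempty
    swap
    · rw [Finset.not_nonempty_iff_eq_empty] at hne
      rw [hne, Finset.card_empty] at hzc
      rw [hne, ← Finset.card_eq_zero, hzc', hzc]
    have hne' : z'.Nonempty := by
      rw [← Finset.card_pos, hzc', ← hzc]
      exact Finset.card_pos.2 hne
    let G : Finset (Fin r × ι) → (Fin r × ι) → ℝ := fun Z k => D.val (D.wit Z).1 (D.wit Z).2 k
    have hPC : PC G z b :=
      ⟨fun Z hZ k => D.wit_good (hz1 Z hZ).1 k, fun Z hZ => (hz1 Z hZ).2, hz2, hb⟩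
    have hPC' : PC G z' (fun Z => γ (Sum.inl Z)) :=
      ⟨fun Z hZ k => D.wit_good (hz1' Z hZ).1 k, fun Z hZ => (hz1' Z hZ).2, hz2', hγpos⟩
    have hwit : ∀ (y : Finset (Finset (Fin r × ι))) (a : Finset (Fin r × ι) → ℝ)
        (_ : PC G y a) (_ : θ = ∑ Z ∈ y, a Z • (D.wit Z).1) (Z₀ : Finset (Fin r × ι))
        (_ : Z₀ ∈ y) (_ : ∀ Z ∈ y, Z₀ ⊆ Z), D.Wit Z₀ θ (∑ Z ∈ y, a Z • (D.wit Z).2) := by
      intro y a hy hya Z₀ h0 hmin k
      have hv : D.val θ (∑ Z ∈ y, a Z • (D.wit Z).2) k = ∑ Z ∈ y, a Z * G Z k := by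
        rw [hya]
        exact D.val_sum y a (fun Z => (D.wit Z).1) (fun Z => (D.wit Z).2) k
      rw [hv]
      refine ⟨Finset.sum_nonneg fun Z hZ => mul_nonneg (hy.pos Z hZ).le (hy.good Z hZ k).1, ?_, ?_⟩
      · intro hk
        exact hy.zero_of_mem fun Z hZ => hmin Z hZ hk
      · intro hk
        exact hy.mem_of_zero hk Z₀ h0
    obtain ⟨Z₀, h0, hmin⟩ := chain_min hz2 hne
    obtain ⟨Z₁, h1, hmin'⟩ := chain_min hz2' hne'
    have hψ := D.psi_unique hLP (hz1 Z₀ h0).1 (hz1' Z₁ h1).1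
      (hwit z b hPC hθb Z₀ h0 hmin)
      (hwit z' (fun Z => γ (Sum.inl Z)) hPC' hγθ Z₁ h1 hmin')
    symm
    apply peel _ z z' b (fun Z => γ (Sum.inl Z)) rfl hPC hPC'
    intro k
    have e1 := D.val_sum z b (fun Z => (D.wit Z).1) (fun Z => (D.wit Z).2) k
    have e2 := D.val_sum z' (fun Z => γ (Sum.inl Z)) (fun Z => (D.wit Z).1)
      (fun Z => (D.wit Z).2) k
    rw [← hθb] at e1
    rw [← hγθ] at e2
    simp only [G]
    rw [← e1, ← e2, hψ]
  rw [Finset.card_eq_one]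
  refine ⟨z, ?_⟩
  ext y
  rw [Finset.mem_filter, Finset.mem_singleton]
  constructor
  · rintro ⟨h1, h2, h3⟩
    exact huniq y h1 h2 h3
  · rintro rfl
    exact ⟨hz, hzc, hposz⟩

end Pool.Agent.TP
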