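import Mathlib
import Pool.Agent.Work.MP_c51d14_co.Interface

/-! # Block PAR of MP_c51d14_co (helper33) -/

namespace Pool.Agent.TP

open Finset

/-- a combination supported in a set lies in the span -/
theorem sum_mem_span_of_supp {L W : Type} [Fintype L] [AddCommGroup W] [Module ℝ W]
    (g : L → W) (S : Set L) (β : L → ℝ) (hβ : ∀ x, β x ≠ 0 → x ∈ S) :
    ∑ x, β x • g x ∈ Submodule.span ℝ (g '' S) := by
  apply Submodule.sum_mem
  intro x _
  by_cases h : β x = 0
  · rw [h, zero_smul]; exact Submodule.zero_mem _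
  · exact Submodule.smul_mem _ _ (Submodule.subset_span ⟨x, hβ x h, rfl⟩)

theorem stmt_Par : Stmt_Par := by
  intro L W _ _ _ _ g θ S hgen hcard hgood
  classical
  by_cases hne : (S.filter fun x => Pos g ((S : Set L) \ {x}) θ).Nonempty
  swap
  · rw [Finset.not_nonempty_iff_eq_empty] at hne
    rw [hne]
    simp
  obtain ⟨x₀, hx₀⟩ := hne
  rw [Finset.mem_filter] at hx₀
  obtain ⟨hx₀S, β₀, hβ₀n, hβ₀s, hβ₀θ⟩ := hx₀
  -- two different zeros are impossible
  have htwo : ∀ β : L → ℝ, (∀ x, β x ≠ 0 → x ∈ S) → θ = ∑ x, β x • g x →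
      ∀ x ∈ S, ∀ y ∈ S, β x = 0 → β y = 0 → x = y := by
    intro β hβs hβθ x hx y hy hbx hby
    by_contra hxy
    have h1 : θ ∈ Submodule.span ℝ (g '' (((S.erase x).erase y : Finset L) : Set L)) := by
      rw [hβθ]
      apply sum_mem_span_of_supp
      intro z hz
      have hzx : z ≠ x := fun h => hz (h ▸ hbx)
      have hzy : z ≠ y := fun h => hz (h ▸ hby)
      simp only [Finset.coe_erase, Set.mem_sdiff, Set.mem_singleton_iff, Finset.mem_coe]
      exact ⟨⟨hβs z hz, hzx⟩, hzy⟩
    have h2 := hgen _ h1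
    have h3 : Module.finrank ℝ ↥(Submodule.span ℝ
        (g '' (((S.erase x).erase y : Finset L) : Set L))) ≤ ((S.erase x).erase y).card := by
      have := finrank_span_finset_le_card (R := ℝ) (((S.erase x).erase y).image g)
      rw [Finset.coe_image] at this
      exact this.trans Finset.card_image_le
    rw [h2, finrank_top] at h3
    have h4 : ((S.erase x).erase y).card + 2 = S.card := by
      have ha := Finset.card_erase_add_one hx
      have hb := Finset.card_erase_add_one (s := S.erase x) (a := y)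
        (Finset.mem_erase.mpr ⟨fun h => hxy h.symm, hy⟩)
      omega
    omega
  have hβ₀x₀ : β₀ x₀ = 0 := by
    by_contra h
    exact (hβ₀s x₀ h).2 rfl
  have hβ₀s' : ∀ x, β₀ x ≠ 0 → x ∈ S := fun x hx => (hβ₀s x hx).1
  -- the relation
  have hspan : Submodule.span ℝ (g '' ((S.erase x₀ : Finset L) : Set L)) = ⊤ := by
    apply hgen
    rw [hβ₀θ]
    apply sum_mem_span_of_supp
    intro z hz
    rw [Finset.coe_erase]
    exact hβ₀s z hz
  obtain ⟨c, hc⟩ : ∃ c : L → ℝ, ∑ i ∈ S.erase x₀, c i • g i = g x₀ := by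
    rw [← Submodule.mem_span_image_finset_iff_exists_fun' (R := ℝ), hspan]
    trivial
  have hli : LinearIndependent ℝ (fun i : (S.erase x₀ : Finset L) => g i) := by
    apply linearIndependent_of_top_le_span_of_card_eq_finrank
    · rw [← hspan, Set.image_eq_range]
      exact le_of_eq rfl
    · rw [Fintype.card_coe, Finset.card_erase_of_mem hx₀S, hcard]
      simp
  let γ : L → ℝ := fun x => if x = x₀ then 1 else if x ∈ S then - c x else 0
  have hγ₀ : γ x₀ = 1 := by simp [γ]
  have hγs : ∀ x, γ x ≠ 0 → x ∈ S := by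
    intro x hx
    by_contra hxS
    apply hx
    have : x ≠ x₀ := fun h => hxS (h ▸ hx₀S)
    simp [γ, this, hxS]
  have hγrel : ∑ x, γ x • g x = 0 := by
    rw [← Finset.sum_subset (Finset.subset_univ S) (fun x _ hx => by
      have : γ x = 0 := by_contra fun h => hx (hγs x h)
      rw [this, zero_smul])]
    rw [← Finset.add_sum_erase _ _ hx₀S, hγ₀, one_smul, ← hc, ← Finset.sum_add_distrib]
    apply Finset.sum_eq_zero
    intro x hx
    rw [Finset.mem_erase] at hx
    simp [γ, hx.1, hx.2]
  -- every relation is a multiple of γ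
  have huniq : ∀ δ : L → ℝ, (∀ x, δ x ≠ 0 → x ∈ S) → ∑ x, δ x • g x = 0 →
      ∀ x, δ x = δ x₀ * γ x := by
    intro δ hδs hδ
    have h1 : ∑ x, (δ x - δ x₀ * γ x) • g x = 0 := by
      simp only [sub_smul, Finset.sum_sub_distrib, mul_smul, ← Finset.smul_sum]
      rw [hδ, hγrel, smul_zero, sub_zero]
    have h2 : ∑ x ∈ S.erase x₀, (δ x - δ x₀ * γ x) • g x = 0 := by
      rw [← h1]
      apply Finset.sum_subset (Finset.subset_univ _)
      intro x _ hx
      rw [Finset.mem_erase, not_and_or, not_not] at hx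
      rcases hx with hx | hx
      · rw [hx, hγ₀]; simp
      · have ha : δ x = 0 := by_contra fun h => hx (hδs x h)
        have hb : γ x = 0 := by_contra fun h => hx (hγs x h)
        rw [ha, hb]; simp
    have h3 : ∑ i : (S.erase x₀ : Finset L), (δ i - δ x₀ * γ i) • g i = 0 := by
      rw [← h2]
      exact Finset.sum_coe_sort (S.erase x₀) (fun x => (δ x - δ x₀ * γ x) • g x)
    rw [Fintype.linearIndependent_iff] at hli
    have h4 := hli (fun i => δ i - δ x₀ * γ i) h3
    intro x
    by_cases hx : x = x₀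
    · rw [hx, hγ₀, mul_one]
    by_cases hxS : x ∈ S
    · have := h4 ⟨x, Finset.mem_erase.mpr ⟨hx, hxS⟩⟩
      simp only at this
      linarith
    · have ha : δ x = 0 := by_contra fun h => hxS (hδs x h)
      have hb : γ x = 0 := by_contra fun h => hxS (hγs x h)
      rw [ha, hb]; simp
  -- some γ is negative
  obtain ⟨y₀, hy₀⟩ : ∃ y, γ y < 0 := by
    by_contra hcon
    push Not at hcon
    have := hgood γ hcon (fun x hx => hγs x hx) hγrel x₀
    rw [hγ₀] at this
    exact one_ne_zero this
  let Ng := S.filter fun x => γ x < 0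
  have hNg : Ng.Nonempty := ⟨y₀, Finset.mem_filter.mpr ⟨hγs y₀ (ne_of_lt hy₀), hy₀⟩⟩
  obtain ⟨x₂, hx₂, hmin⟩ := Finset.exists_min_image Ng (fun x => β₀ x / (- γ x)) hNg
  rw [Finset.mem_filter] at hx₂
  obtain ⟨hx₂S, hγ₂⟩ := hx₂
  set t₂ := β₀ x₂ / (- γ x₂) with ht₂
  have ht₂0 : 0 ≤ t₂ := div_nonneg (hβ₀n x₂) (by linarith)
  have hx₂ne : x₂ ≠ x₀ := by
    intro h
    rw [h, hγ₀] at hγ₂
    linarith
  have hcoord2 : ∀ t, β₀ x₂ + t * γ x₂ = (t₂ - t) * (- γ x₂) := by
    intro t
    have h1 : t₂ * (- γ x₂) = β₀ x₂ := by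
      rw [ht₂]
      exact div_mul_cancel₀ _ (by linarith [hγ₂] : (- γ x₂) ≠ 0 |> fun h => h)
    rw [sub_mul, h1]
    ring
  have hfeas2 : ∀ x, 0 ≤ β₀ x + t₂ * γ x := by
    intro x
    by_cases hx : γ x < 0
    · have h1 := hmin x (Finset.mem_filter.mpr ⟨hγs x (ne_of_lt hx), hx⟩)
      rw [le_div_iff₀ (by linarith)] at h1
      linarith
    · push Not at hx
      have := mul_nonneg ht₂0 hx
      have := hβ₀n x
      linarith
  -- representation
  have hrep : ∀ t : ℝ, θ = ∑ x, (β₀ x + t * γ x) • g x := by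
    intro t
    simp only [add_smul, Finset.sum_add_distrib, mul_smul, ← Finset.smul_sum]
    rw [hγrel, smul_zero, add_zero]
    exact hβ₀θ
  have hsupp : ∀ t : ℝ, ∀ x, β₀ x + t * γ x ≠ 0 → x ∈ S := by
    intro t x hx
    by_contra hxS
    apply hx
    have ha : β₀ x = 0 := by_contra fun h => hxS (hβ₀s' x h)
    have hb : γ x = 0 := by_contra fun h => hxS (hγs x h)
    rw [ha, hb]; simp
  have hmain : (S.filter fun x => Pos g ((S : Set L) \ {x}) θ) = {x₀, x₂} := by
    ext x
    rw [Finset.mem_filter, Finset.mem_insert, Finset.mem_singleton]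
    constructor
    · rintro ⟨hxS, β, hβn, hβs, hβθ⟩
      have hβx : β x = 0 := by
        by_contra h
        exact (hβs x h).2 rfl
      have hβs' : ∀ x, β x ≠ 0 → x ∈ S := fun x hx => (hβs x hx).1
      have hrel : ∀ y, β y - β₀ y = (β x₀ - β₀ x₀) * γ y := by
        apply huniq (fun y => β y - β₀ y)
        · intro y hy
          by_contra hyS
          apply hy
          have ha : β y = 0 := by_contra fun h => hyS (hβs' y h)
          have hb : β₀ y = 0 := by_contra fun h => hyS (hβ₀s' y h)
          rw [ha, hb]; simp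
        · simp only [sub_smul, Finset.sum_sub_distrib]
          rw [← hβθ, ← hβ₀θ, sub_self]
      rw [hβ₀x₀, sub_zero] at hrel
      set t := β x₀ with ht
      have ht0 : 0 ≤ t := hβn x₀
      have hβeq : ∀ y, β y = β₀ y + t * γ y := fun y => by have := hrel y; linarith
      have htle : t ≤ t₂ := by
        have h1 := hβn x₂
        rw [hβeq, hcoord2] at h1
        by_contra hlt
        push Not at hlt
        have : (t₂ - t) * (- γ x₂) < 0 := mul_neg_of_neg_of_pos (by linarith) (by linarith)
        linarith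
      rcases eq_or_lt_of_le ht0 with h0 | h0
      · left
        apply htwo β hβs' hβθ x hxS x₀ hx₀S hβx
        rw [← ht, ← h0]
      · have h1 := hβeq x
        rw [hβx] at h1
        by_cases hγx : γ x < 0
        · right
          have h2 := hmin x (Finset.mem_filter.mpr ⟨hγs x (ne_of_lt hγx), hγx⟩)
          rw [le_div_iff₀ (by linarith)] at h2
          have h3 : t * (- γ x) = β₀ x := by linarith
          have h4 : t₂ ≤ t := by
            by_contra hlt
            push Not at hlt
            have : (t₂ - t) * (- γ x) > 0 := mul_pos (by linarith) (by linarith)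
            nlinarith
          have h5 : t = t₂ := le_antisymm htle h4
          apply htwo β hβs' hβθ x hxS x₂ hx₂S hβx
          rw [hβeq, hcoord2, h5]
          ring
        · push Not at hγx
          exfalso
          have h2 := hβ₀n x
          have h3 : 0 ≤ t * γ x := mul_nonneg ht0 hγx
          have h4 : β₀ x = 0 := by linarith
          have h5 : t * γ x = 0 := by linarith
          have h6 : γ x = 0 := by
            rcases mul_eq_zero.mp h5 with h | h
            · exact absurd h (ne_of_gt h0)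
            · exact h
          have h7 := htwo β₀ hβ₀s' hβ₀θ x hxS x₀ hx₀S h4 hβ₀x₀
          rw [h7, hγ₀] at h6
          exact one_ne_zero h6
    · rintro (rfl | rfl)
      · exact ⟨hx₀S, β₀, hβ₀n, hβ₀s, hβ₀θ⟩
      · refine ⟨hx₂S, fun y => β₀ y + t₂ * γ y, hfeas2, ?_, hrep t₂⟩
        intro y hy
        refine ⟨hsupp t₂ y hy, ?_⟩
        intro h
        rw [Set.mem_singleton_iff] at h
        apply hy
        simp only
        rw [h, hcoord2]
        ring
  rw [hmain, Finset.card_pair hx₂ne.symm]
  exact even_two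

end Pool.Agent.TP
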