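import Mathlib
import Pool.Agent.Work.MP_c51d14_co.Basic2
import Pool.Agent.Work.MP_c51d14_co_helper33.DEG

/-! # Block GOOD of MP_c51d14_co (helper33) -/

namespace Pool.Agent.TP

open Finset

open scoped RealInnerProductSpace

theorem stmt_Good : Stmt_Good := by
  intro ι E W _ _ _ _ _ _ _ r D hNo x hx
  classical
  intro β hβ0 hβs hβ
  rw [Sark.mem_sT] at hx
  obtain ⟨hCH, hTup, hin⟩ := hx
  obtain ⟨hz1, hz2⟩ := D.mem_CH.1 hCH
  -- split the sum
  have hinl : ∀ Z, β (Sum.inl Z) ≠ 0 → Z ∈ x.1 := by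
    intro Z hZ
    rcases D.mem_supp.1 (hβs _ hZ) with ⟨Z', hZ', he⟩ | ⟨i, j, _, he⟩
    · rw [Sum.inl.inj he]; exact hZ'
    · exact absurd he (by simp)
  have hinr : ∀ k : Fin r × ι, β (Sum.inr k) ≠ 0 → k.2 ∈ x.2 k.1 := by
    intro k hk
    rcases D.mem_supp.1 (hβs _ hk) with ⟨Z', hZ', he⟩ | ⟨i, j, hj, he⟩
    · exact absurd he (by simp)
    · rw [Sum.inr.inj he]; exact hj
  set u : W := ∑ Z ∈ x.1, β (Sum.inl Z) • (D.wit Z).1 with hu
  set ψ : Module.Dual ℝ E := ∑ Z ∈ x.1, β (Sum.inl Z) • (D.wit Z).2 with hψ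
  set y : W := ∑ k : Fin r × ι, β (Sum.inr k) • D.Φ k.1 (D.v k.2) with hy
  have huy : u + y = 0 := by
    rw [← hβ, Fintype.sum_sum_type]
    congr 1
    rw [hu]
    apply Finset.sum_subset (Finset.subset_univ _)
    intro Z _ hZ
    have : β (Sum.inl Z) = 0 := by
      by_contra h
      exact hZ (hinl Z h)
    rw [this, zero_smul]
  have hval : ∀ k, D.val u ψ k =
      ∑ Z ∈ x.1, β (Sum.inl Z) * D.val (D.wit Z).1 (D.wit Z).2 k := fun k =>
    D.val_sum x.1 (fun Z => β (Sum.inl Z)) (fun Z => (D.wit Z).1) (fun Z => (D.wit Z).2) k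
  have hval0 : ∀ k, 0 ≤ D.val u ψ k := by
    intro k
    rw [hval]
    exact Finset.sum_nonneg fun Z hZ => mul_nonneg (hβ0 _) (D.wit_good (hz1 Z hZ).1 k).1
  have hvalF : ∀ k : Fin r × ι, k.2 ∈ x.2 k.1 → D.val u ψ k = 0 := by
    intro k hk
    rw [hval]
    apply Finset.sum_eq_zero
    intro Z hZ
    rw [((D.wit_good (hz1 Z hZ).1 k).2).1 (hin Z hZ k.1 k.2 hk), mul_zero]
  have hψ0 : ∀ j, 0 ≤ ψ (D.v j) := D.psi_nonneg hval0
  have hzero : ∑ k : Fin r × ι, β (Sum.inr k) * D.val u ψ k = 0 := by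
    apply Finset.sum_eq_zero
    intro k _
    by_cases h : β (Sum.inr k) = 0
    · rw [h, zero_mul]
    · rw [hvalF k (hinr k h), mul_zero]
  have hexp : ∑ k : Fin r × ι, β (Sum.inr k) * D.val u ψ k =
      ∑ k : Fin r × ι, β (Sum.inr k) * ψ (D.v k.2) - ⟪u, y⟫ := by
    rw [hy, inner_sum, ← Finset.sum_sub_distrib]
    apply Finset.sum_congr rfl
    intro k _
    rw [Sark.val, inner_smul_right]
    ring
  have hyu : y = -u := by
    rw [eq_neg_iff_add_eq_zero, add_comm]; exact huy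
  have hu0 : u = 0 := by
    have h1 : 0 ≤ ∑ k : Fin r × ι, β (Sum.inr k) * ψ (D.v k.2) :=
      Finset.sum_nonneg fun k _ => mul_nonneg (hβ0 _) (hψ0 _)
    rw [hexp, hyu, inner_neg_right] at hzero
    have h2 : 0 ≤ ⟪u, u⟫ := real_inner_self_nonneg
    have h3 : ⟪u, u⟫ = 0 := by linarith
    exact inner_self_eq_zero.1 h3
  have hy0 : y = 0 := by rw [hyu, hu0, neg_zero]
  -- the labels of the second kind
  have hr : ∀ k : Fin r × ι, β (Sum.inr k) = 0 :=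
    hNo x.2 hTup (fun k => β (Sum.inr k)) (fun k => hβ0 _) (fun k hk => hinr k hk) (by
      rw [← hy0])
  -- the labels of the first kind
  have hl : ∀ Z, β (Sum.inl Z) = 0 := by
    by_contra hcon
    push Not at hcon
    obtain ⟨Zc, hZc0⟩ := hcon
    let A := x.1.filter fun Z => β (Sum.inl Z) ≠ 0
    have hAne : A.Nonempty := ⟨Zc, Finset.mem_filter.2 ⟨hinl Zc hZc0, hZc0⟩⟩
    have hAc : ∀ Z ∈ A, ∀ Z' ∈ A, Z ⊆ Z' ∨ Z' ⊆ Z := fun Z hZ Z' hZ' =>
      hz2 Z (Finset.mem_filter.1 hZ).1 Z' (Finset.mem_filter.1 hZ').1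
    obtain ⟨Z₁, h1, hmin⟩ := chain_min hAc hAne
    have h1' := Finset.mem_filter.1 h1
    have hv1 : ∀ k ∈ (Z₁ : Set (Fin r × ι)), D.val u ψ k = 0 := by
      intro k hk
      rw [hval]
      apply Finset.sum_eq_zero
      intro Z hZ
      by_cases hb : β (Sum.inl Z) = 0
      · rw [hb, zero_mul]
      · rw [((D.wit_good (hz1 Z hZ).1 k).2).1 (hmin Z (Finset.mem_filter.2 ⟨hZ, hb⟩) hk), mul_zero]
    have hψz : ψ = 0 := by
      apply Sark.psi_eq_zero_of_span (D.span_of_pos (D.mem_N.1 (hz1 Z₁ h1'.1).1).2)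
      intro k hk
      have := hv1 k hk
      rw [Sark.val, hu0, inner_zero_left, sub_zero] at this
      exact this
    obtain ⟨k, hk1, -⟩ := exists_sep hAc hmin (hz1 Z₁ h1'.1).2
    have h2 : D.val u ψ k = 0 := by rw [hu0, hψz, D.val_zero]
    rw [hval, Finset.sum_eq_zero_iff_of_nonneg
      (fun Z hZ => mul_nonneg (hβ0 _) (D.wit_good (hz1 Z hZ).1 k).1)] at h2
    rcases mul_eq_zero.1 (h2 Z₁ h1'.1) with h3 | h3
    · exact h1'.2 h3
    · exact hk1 (((D.wit_good (hz1 Z₁ h1'.1).1 k).2).2 h3)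
  intro l
  rcases l with Z | k
  · exact hl Z
  · exact hr k

end Pool.Agent.TP
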